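import Mathlib
import Pool.Agent.Helper73_HK.Final

/-!
# Hilbert–Kunz multiplicities accumulate from above in every dimension at least two

For every prime `p`, every finite field `F` of characteristic `p` and every `d ≥ 2` there is a
sequence of singular `d`-dimensional local rings, each the localization of a finitely generated
`F`-algebra at a maximal ideal, whose Hilbert–Kunz multiplicities are strictly decreasing, with
limit `4 p / (p + 1)`.  The rings are the local rings at the origin of the hypersurfaces
`z ^ (p + 1) = x y (x + y) (x + a y)` (times an affine space) for suitable `a` algebraic over `F`.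
-/

universe u

namespace Pool.Agent.Results.MP_f00780_ag.AllPrimes

open Filter Topology Pool.Agent.Helper73_HK

theorem result (p : ℕ) [Fact p.Prime] (F : Type u) [Field F] [Finite F] [CharP F p]
    (d : ℕ) (hd : 2 ≤ d) :
    ∃ e : ℕ → ℝ, (∀ n, IsSingularHKValue p F d (e n)) ∧ StrictAnti e ∧
      Tendsto e atTop (𝓝 (4 * p / (p + 1))) := by
  obtain ⟨k, rfl⟩ := Nat.exists_eq_add_of_le' hd
  exact main p F k

end Pool.Agent.Results.MP_f00780_ag.AllPrimes
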